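import Pool.Agent.Helper86.TH.Stmts

/-! # Rows CNJ and DOM of the project TH: conjugate partitions and dominance -/

namespace TH30

open TH MvPolynomial Finset

theorem mem_filt (μ : Par) (i j : ℕ) :
    i ∈ μ.1.support.filter (fun i => j < μ.1 i) ↔ j < μ.1 i := by
  rw [Finset.mem_filter, Finsupp.mem_support_iff]
  constructor
  · exact fun h => h.2
  · intro h
    exact ⟨by omega, h⟩

theorem lt_cnj (μ : Par) (i j : ℕ) : i < cnj μ j ↔ j < μ.1 i := by
  unfold cnj
  constructor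
  · intro h
    by_contra hn
    have hsub : μ.1.support.filter (fun i => j < μ.1 i) ⊆ range i := by
      intro a ha
      rw [mem_filt] at ha
      rw [Finset.mem_range]
      by_contra hia
      have := Par.anti μ (not_lt.mp hia)
      omega
    have := Finset.card_le_card hsub
    rw [Finset.card_range] at this
    omega
  · intro h
    have hsub : range (i + 1) ⊆ μ.1.support.filter (fun i => j < μ.1 i) := by
      intro a ha
      rw [Finset.mem_range] at ha
      rw [mem_filt]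
      have := Par.anti μ (Nat.lt_succ_iff.mp ha)
      omega
    have := Finset.card_le_card hsub
    rw [Finset.card_range] at this
    omega

theorem cnj_anti (μ : Par) : Antitone (cnj μ) := by
  intro a b hab
  refine le_of_forall_lt fun c hc => ?_
  rw [lt_cnj] at hc ⊢
  omega

/-- the conjugate partition -/
noncomputable def cj (μ : Par) : Par :=
  ⟨Finsupp.onFinset (range (μ.1 0)) (cnj μ) (fun j hj => by
      rw [Finset.mem_range]
      have : 0 < cnj μ j := Nat.pos_of_ne_zero hj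
      exact (lt_cnj μ 0 j).mp this), by
    intro a b hab
    exact cnj_anti μ hab⟩

theorem cj_coe (μ : Par) : ((cj μ).1 : ℕ → ℕ) = cnj μ := by
  funext j
  simp [cj]

theorem cj_apply (μ : Par) (j : ℕ) : (cj μ).1 j = cnj μ j := by
  rw [cj_coe]

theorem cnj_cj (μ : Par) : cnj (cj μ) = (μ.1 : ℕ → ℕ) := by
  funext i
  refine eq_of_forall_lt_iff fun c => ?_
  rw [lt_cnj, cj_apply, lt_cnj]

/-- double counting -/
theorem swap {R : Type*} [AddCommMonoid R] (μ : Par) (g : ℕ → ℕ → R) (N M : ℕ)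
    (hN : ∀ i, N ≤ i → μ.1 i = 0) (hM : μ.1 0 ≤ M) :
    ∑ i ∈ range N, ∑ j ∈ range (μ.1 i), g i j
      = ∑ j ∈ range M, ∑ i ∈ range (cnj μ j), g i j := by
  refine Finset.sum_comm' ?_
  intro i j
  simp only [Finset.mem_range]
  constructor
  · rintro ⟨h1, h2⟩
    refine ⟨(lt_cnj μ i j).mpr h2, ?_⟩
    have := Par.anti μ (Nat.zero_le i)
    omega
  · rintro ⟨h1, h2⟩
    have h3 := (lt_cnj μ i j).mp h1
    refine ⟨?_, h3⟩
    by_contra hn
    have := hN i (not_lt.mp hn)
    omega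

theorem cj_zero (μ : Par) (j : ℕ) (h : μ.1 0 ≤ j) : (cj μ).1 j = 0 := by
  rw [cj_apply]
  by_contra hn
  have := (lt_cnj μ 0 j).mp (Nat.pos_of_ne_zero hn)
  omega

theorem card_cj (μ : Par) : card (cj μ) = card μ := by
  have h1 := card_range μ (card μ) (fun i hi => Par.zero_of_card_le μ hi)
  have h2 := card_range (cj μ) (μ.1 0) (fun i hi => cj_zero μ i hi)
  have h3 := swap μ (fun _ _ => (1 : ℕ)) (card μ) (μ.1 0)
    (fun i hi => Par.zero_of_card_le μ hi) le_rfl
  simp only [Finset.sum_const, Finset.card_range, smul_eq_mul, mul_one] at h3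
  rw [h1, h2, h3]
  exact Finset.sum_congr rfl fun j _ => cj_apply μ j

theorem st_CNJ (K : Type*) [Field K] [CharZero K] : ST_CNJ K := by
  intro μ
  refine ⟨cj μ, cj_coe μ, card_cj μ, cnj_cj μ, ?_⟩
  intro q t
  unfold Ps
  rw [csum_range (cj μ) _ (μ.1 0) (fun i hi => cj_zero μ i hi),
    csum_range μ _ (card μ) (fun i hi => Par.zero_of_card_le μ hi),
    swap μ _ (card μ) (μ.1 0) (fun i hi => Par.zero_of_card_le μ hi) le_rfl]
  refine Finset.sum_congr rfl fun j _ => ?_
  rw [cj_apply]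
  refine Finset.sum_congr rfl fun i _ => ?_
  rw [mul_comm]

theorem sum_cnj (μ : Par) (N k : ℕ) (hN : ∀ i, N ≤ i → μ.1 i = 0) :
    ∑ j ∈ range k, cnj μ j = ∑ i ∈ range N, min k (μ.1 i) := by
  have h : ∑ j ∈ range k, ∑ i ∈ range (cnj μ j), (1 : ℕ)
      = ∑ i ∈ range N, ∑ j ∈ range (min k (μ.1 i)), (1 : ℕ) := by
    refine Finset.sum_comm' ?_
    intro j i
    simp only [Finset.mem_range]
    constructor
    · rintro ⟨h1, h2⟩
      have h3 := (lt_cnj μ i j).mp h2
      refine ⟨lt_min h1 h3, ?_⟩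
      by_contra hn
      have := hN i (not_lt.mp hn)
      omega
    · rintro ⟨h1, h2⟩
      exact ⟨lt_of_lt_of_le h1 (min_le_left _ _),
        (lt_cnj μ i j).mpr (lt_of_lt_of_le h1 (min_le_right _ _))⟩
  simpa using h

theorem le_part (μ ν : Par) (hc : card μ = card ν) (hd : Dom (cnj μ) (cnj ν)) (r : ℕ) :
    ∑ i ∈ range r, ν.1 i ≤ ∑ i ∈ range r, μ.1 i := by
  set N := card μ + r with hN
  have hμ : ∀ i, N ≤ i → μ.1 i = 0 := fun i hi => Par.zero_of_card_le μ (by omega)
  have hν : ∀ i, N ≤ i → ν.1 i = 0 := fun i hi => Par.zero_of_card_le ν (by omega)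
  have h1 := card_range μ N hμ
  have h2 := card_range ν N hν
  set k := μ.1 r with hk
  have h3 := hd k
  rw [sum_cnj μ N k hμ, sum_cnj ν N k hν] at h3
  have hsplit : ∀ f : ℕ → ℕ, ∑ i ∈ range N, f i
      = ∑ i ∈ range r, f i + ∑ i ∈ Finset.Ico r N, f i := by
    intro f
    rw [Finset.range_eq_Ico, Finset.range_eq_Ico]
    exact (Finset.sum_Ico_consecutive f (Nat.zero_le r) (by omega)).symm
  rw [hsplit] at h1 h2 h3
  rw [hsplit] at h3
  have h4 : ∑ i ∈ range r, min k (μ.1 i) = ∑ i ∈ range r, k :=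
    Finset.sum_congr rfl fun i hi => by
      have := Par.anti μ (le_of_lt (Finset.mem_range.mp hi))
      exact min_eq_left (by omega)
  have h5 : ∑ i ∈ Finset.Ico r N, min k (μ.1 i) = ∑ i ∈ Finset.Ico r N, μ.1 i :=
    Finset.sum_congr rfl fun i hi => by
      have := Par.anti μ (Finset.mem_Ico.mp hi).1
      exact min_eq_right (by omega)
  have h6 : ∑ i ∈ range r, ν.1 i + ∑ i ∈ range r, min k (ν.1 i)
      ≤ ∑ i ∈ range r, k + ∑ i ∈ range r, ν.1 i := by
    rw [add_comm (∑ i ∈ range r, k)]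
    exact Nat.add_le_add_left (Finset.sum_le_sum fun i _ => min_le_left _ _) _
  have h7 : ∑ i ∈ Finset.Ico r N, min k (ν.1 i) ≤ ∑ i ∈ Finset.Ico r N, ν.1 i :=
    Finset.sum_le_sum fun i _ => min_le_right _ _
  have h8 : ∑ i ∈ range r, min k (ν.1 i) ≤ ∑ i ∈ range r, k :=
    Finset.sum_le_sum fun i _ => min_le_left _ _
  omega

theorem st_DOM : ST_DOM := by
  intro μ ν hc hd hd'
  have h : ∀ r, ∑ i ∈ range r, μ.1 i = ∑ i ∈ range r, ν.1 i := fun r =>
    le_antisymm (hd r) (le_part μ ν hc hd' r)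
  apply Subtype.ext
  ext i
  have h1 := h (i + 1)
  rw [Finset.sum_range_succ, Finset.sum_range_succ, h i] at h1
  omega

end TH30
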